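import Pool.Agent.H606.OS.Stm

open MeasureTheory Filter Topology Finset
open Pool.Agent.H606.OS

namespace Pool.Agent.H980.OS.NB

/-- occupation number -/
def cc {N : ℕ} (a : Fin N → ℤ) (m : ℤ) : ℕ := (univ.filter (fun j => a j = m)).card

/-- pairs with integer difference `d` -/
def Qs {N : ℕ} (a : Fin N → ℤ) (d : ℤ) : Finset (Fin N × Fin N) :=
  univ.filter (fun q => a q.1 = a q.2 + d)

lemma card_Qs {N : ℕ} (a : Fin N → ℤ) (d : ℤ) : (Qs a d).card = ∑ l, cc a (a l + d) := by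
  unfold Qs cc
  rw [card_filter, Fintype.sum_prod_type_right]
  refine sum_congr rfl fun l _ => ?_
  rw [card_filter]

lemma card_Qs' {N : ℕ} (a : Fin N → ℤ) (d : ℤ) :
    (Qs a d).card = ∑ m ∈ univ.image a, cc a m * cc a (m + d) := by
  rw [card_Qs]
  have := Finset.sum_comp (s := (univ : Finset (Fin N))) (fun m => cc a (m + d)) a
  rw [this]
  refine sum_congr rfl fun m _ => ?_
  rw [smul_eq_mul]
  rfl

lemma Qs_le {N : ℕ} (a : Fin N → ℤ) (d : ℤ) : (Qs a d).card ≤ (Qs a 0).card := by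
  rw [card_Qs' a d, card_Qs' a 0]
  have h2 : 2 * ∑ m ∈ univ.image a, cc a m * cc a (m + d) ≤
      2 * ∑ m ∈ univ.image a, cc a m * cc a (m + 0) := by
    calc 2 * ∑ m ∈ univ.image a, cc a m * cc a (m + d)
        = ∑ m ∈ univ.image a, 2 * cc a m * cc a (m + d) := by
          rw [mul_sum]
          exact sum_congr rfl fun m _ => by ring
      _ ≤ ∑ m ∈ univ.image a, (cc a m ^ 2 + cc a (m + d) ^ 2) :=
          sum_le_sum fun m _ => two_mul_le_add_sq _ _
      _ = ∑ m ∈ univ.image a, cc a m ^ 2 + ∑ m ∈ univ.image a, cc a (m + d) ^ 2 :=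
          sum_add_distrib
      _ ≤ ∑ m ∈ univ.image a, cc a m ^ 2 + ∑ m ∈ univ.image a, cc a m ^ 2 := by
          refine Nat.add_le_add_left ?_ _
          have hinj : Function.Injective (fun m : ℤ => m + d) := fun x y h => by
            simpa using h
          have h1 : ∑ m ∈ univ.image a, cc a (m + d) ^ 2 =
              ∑ m ∈ (univ.image a).image (fun m : ℤ => m + d), cc a m ^ 2 := by
            rw [sum_image (fun x _ y _ h => hinj h)]
          rw [h1]
          refine Finset.sum_le_sum_of_ne_zero fun m _ hm => ?_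
          rw [mem_image]
          by_contra hcon
          apply hm
          have : cc a m = 0 := by
            unfold cc
            rw [card_eq_zero, filter_eq_empty_iff]
            intro j _ hj
            exact hcon ⟨j, mem_univ _, hj⟩
          rw [this]
          rfl
      _ = 2 * ∑ m ∈ univ.image a, cc a m * cc a (m + 0) := by
          rw [← two_mul]
          refine congrArg (fun t => 2 * t) (sum_congr rfl fun m _ => ?_)
          rw [add_zero, sq]
  exact Nat.le_of_mul_le_mul_left h2 (by norm_num)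

/-- pairs at distance at most one -/
noncomputable def Pr {N : ℕ} (x : Fin N → ℝ) : Finset (Fin N × Fin N) :=
  univ.filter (fun q => |x q.1 - x q.2| ≤ 1)

lemma Q0_le {N : ℕ} (x : Fin N → ℝ) : (Qs (fun j => ⌊x j⌋) 0).card ≤ (Pr x).card := by
  refine card_le_card fun q hq => ?_
  unfold Qs at hq
  unfold Pr
  rw [mem_filter] at hq ⊢
  refine ⟨mem_univ _, ?_⟩
  have h := hq.2
  simp only [add_zero] at h
  have h1 := Int.floor_le (x q.1)
  have h2 := Int.lt_floor_add_one (x q.1)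
  have h3 := Int.floor_le (x q.2)
  have h4 := Int.lt_floor_add_one (x q.2)
  rw [h] at h1 h2
  rw [abs_le]
  constructor <;> linarith

lemma pairs_le {N : ℕ} (x : Fin N → ℝ) (y : ℝ) :
    {q : Fin N × Fin N | x q.1 - x q.2 ∈ Set.Icc y (y + 1)}.ncard ≤ 3 * (Pr x).card := by
  classical
  set a : Fin N → ℤ := fun j => ⌊x j⌋ with ha
  have hsub : {q : Fin N × Fin N | x q.1 - x q.2 ∈ Set.Icc y (y + 1)} ⊆
      ((Qs a ⌊y⌋ ∪ Qs a (⌊y⌋ + 1) ∪ Qs a (⌊y⌋ + 2) : Finset (Fin N × Fin N)) :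
        Set (Fin N × Fin N)) := by
    intro q hq
    have hq1 : y ≤ x q.1 - x q.2 := hq.1
    have hq2 : x q.1 - x q.2 ≤ y + 1 := hq.2
    have h1 := Int.floor_le (x q.1)
    have h2 := Int.lt_floor_add_one (x q.1)
    have h3 := Int.floor_le (x q.2)
    have h4 := Int.lt_floor_add_one (x q.2)
    have h5 := Int.floor_le y
    have h6 := Int.lt_floor_add_one y
    have h7 : (⌊y⌋ : ℤ) - 1 < ⌊x q.1⌋ - ⌊x q.2⌋ := by
      have : ((⌊y⌋ - 1 : ℤ) : ℝ) < ((⌊x q.1⌋ - ⌊x q.2⌋ : ℤ) : ℝ) := by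
        push_cast
        linarith
      exact_mod_cast this
    have h8 : ⌊x q.1⌋ - ⌊x q.2⌋ < ⌊y⌋ + 3 := by
      have : ((⌊x q.1⌋ - ⌊x q.2⌋ : ℤ) : ℝ) < ((⌊y⌋ + 3 : ℤ) : ℝ) := by
        push_cast
        linarith
      exact_mod_cast this
    rw [mem_coe, mem_union, mem_union]
    unfold Qs
    simp only [mem_filter, mem_univ, true_and, ha]
    omega
  calc _ ≤ ((Qs a ⌊y⌋ ∪ Qs a (⌊y⌋ + 1) ∪ Qs a (⌊y⌋ + 2) : Finset (Fin N × Fin N)) :
        Set (Fin N × Fin N)).ncard := Set.ncard_le_ncard hsub (Finset.finite_toSet _)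
    _ = (Qs a ⌊y⌋ ∪ Qs a (⌊y⌋ + 1) ∪ Qs a (⌊y⌋ + 2)).card := Set.ncard_coe_finset _
    _ ≤ (Qs a ⌊y⌋ ∪ Qs a (⌊y⌋ + 1)).card + (Qs a (⌊y⌋ + 2)).card := card_union_le _ _
    _ ≤ ((Qs a ⌊y⌋).card + (Qs a (⌊y⌋ + 1)).card) + (Qs a (⌊y⌋ + 2)).card :=
        Nat.add_le_add_right (card_union_le _ _) _
    _ ≤ 3 * (Pr x).card := by
        have e0 := Qs_le a ⌊y⌋
        have e1 := Qs_le a (⌊y⌋ + 1)
        have e2 := Qs_le a (⌊y⌋ + 2)
        have e3 := Q0_le x
        rw [← ha] at e3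
        omega

theorem t_NB (hKK : S_KK) : S_NB := by
  obtain ⟨C, hC1, -, hk0, heven, hnn, -, -, hq, -, -⟩ := hKK
  intro C1 hC1'
  refine ⟨9 * (13 + C1), by positivity, fun D => ?_⟩
  have h12 : (0 : ℝ) < 1 / 12 := by norm_num
  filter_upwards [D.hR, D.n1 1 (1 / 12) h12 le_rfl] with T hR hn y
  have hs : ssum (D.x T) (D.R T) (1 / 12) ≤ 13 + C1 := by
    rw [sum_range_one, Nat.cast_one, Real.sqrt_one, pow_zero, div_one,
      div_le_iff₀ (by norm_num)] at hn
    linarith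
  have hs2 : ∑ j, ∑ k, kk (2 * Real.pi * (1 / 12) * (D.x T j - D.x T k)) ≤
      (13 + C1) * D.R T := by
    unfold ssum at hs
    rwa [div_le_iff₀ hR] at hs
  have hpair : ((Pr (D.x T)).card : ℝ) * (1 / 3) ≤ (13 + C1) * D.R T := by
    refine le_trans ?_ hs2
    rw [← Fintype.sum_prod_type' (fun j k => kk (2 * Real.pi * (1 / 12) * (D.x T j - D.x T k)))]
    calc ((Pr (D.x T)).card : ℝ) * (1 / 3) = ∑ q ∈ Pr (D.x T), (1 / 3 : ℝ) := by
          rw [sum_const, nsmul_eq_mul]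
      _ ≤ ∑ q ∈ Pr (D.x T), kk (2 * Real.pi * (1 / 12) * (D.x T q.1 - D.x T q.2)) := by
          refine sum_le_sum fun q hqm => ?_
          unfold Pr at hqm
          rw [mem_filter] at hqm
          have hu := hqm.2
          have h := hq (2 * Real.pi * (1 / 12) * (D.x T q.1 - D.x T q.2))
          have hsq : (D.x T q.1 - D.x T q.2) ^ 2 ≤ 1 := by
            rw [← sq_abs]
            exact pow_le_one₀ (abs_nonneg _) hu
          have hpi : Real.pi ^ 2 < 12 := by
            have := Real.pi_lt_d2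
            have h3 := Real.pi_pos
            nlinarith
          have he : (2 * Real.pi * (1 / 12) * (D.x T q.1 - D.x T q.2)) ^ 2 =
              Real.pi ^ 2 / 36 * (D.x T q.1 - D.x T q.2) ^ 2 := by ring
          have : Real.pi ^ 2 / 36 * (D.x T q.1 - D.x T q.2) ^ 2 ≤ 1 / 3 := by
            calc Real.pi ^ 2 / 36 * (D.x T q.1 - D.x T q.2) ^ 2
                ≤ Real.pi ^ 2 / 36 * 1 := mul_le_mul_of_nonneg_left hsq (by positivity)
              _ ≤ 1 / 3 := by linarith
          rw [he] at h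
          linarith
      _ ≤ ∑ q : Fin (D.N T) × Fin (D.N T),
          kk (2 * Real.pi * (1 / 12) * (D.x T q.1 - D.x T q.2)) :=
          sum_le_sum_of_subset_of_nonneg (subset_univ _) fun q _ _ => hnn _
  unfold pc
  rw [div_le_iff₀ hR]
  have := pairs_le (D.x T) y
  have h' : (({q : Fin (D.N T) × Fin (D.N T) |
      D.x T q.1 - D.x T q.2 ∈ Set.Icc y (y + 1)}.ncard : ℕ) : ℝ) ≤
      3 * ((Pr (D.x T)).card : ℝ) := by exact_mod_cast this
  linarith

end Pool.Agent.H980.OS.NB
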